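import Mathlib

set_option autoImplicit false

open Set Topology Filter

/-!
# Invariant complete sections contain whole fibres

Let `s` be a local homeomorphism of a second countable Baire space `Y` such that each non-empty
open set has a dense image under some iterate of `s`.  For the map `(n, y) ↦ (n + 1, s y)` of
`ℕ × Y` every forward invariant complete section with the property of Baire contains, on all
sufficiently high levels, the whole fibres over a comeagre set of points.  In particular, if `s` is
the shift of the Baire space, whose fibres are infinite, then the map is finite-to-one on no such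
complete section; it is not even possible to remove a single point from comeagrely many fibres.
-/

namespace Pool.Agent.Results.MP_a2e3d9_lc.WholeFibres

universe u

/-- The orbit equivalence relation of `f`: forward orbits meet. -/
def OrbitRel {X : Type*} (f : X → X) (x y : X) : Prop :=
  ∃ m n : ℕ, f^[m] x = f^[n] y

/-- `B` meets every class of the orbit equivalence relation of `f`. -/
def IsCompleteSection {X : Type*} (f : X → X) (B : Set X) : Prop :=
  ∀ x : X, ∃ y ∈ B, OrbitRel f x y

/-- `B` is good for `f`: a forward invariant complete section on which `f` is finite-to-one. -/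
def IsGood {X : Type*} (f : X → X) (B : Set X) : Prop :=
  IsCompleteSection f B ∧ f '' B ⊆ B ∧ ∀ y : X, (f ⁻¹' {y} ∩ B).Finite

/-- Raise the level by one and apply `s`. -/
def tower {Y : Type*} (s : Y → Y) : ℕ × Y → ℕ × Y := fun p => (p.1 + 1, s p.2)

/-- The shift of the Baire space. -/
def shift (z : ℕ → ℕ) : ℕ → ℕ := fun j => z (j + 1)

theorem tower_iterate {Y : Type*} (s : Y → Y) (m n : ℕ) (z : Y) :
    (tower s)^[m] (n, z) = (n + m, s^[m] z) := by
  induction m with
  | zero => rfl
  | succ m ih =>
    rw [Function.iterate_succ_apply', ih, Function.iterate_succ_apply']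
    rfl

theorem meagre_image_chart {Y Z : Type*} [TopologicalSpace Y] [TopologicalSpace Z]
    (e : OpenPartialHomeomorph Y Z) {M : Set Y} (hM : IsMeagre M) :
    IsMeagre (e '' (M ∩ e.source)) := by
  let g : e.target → Y := fun z => (e.toHomeomorphSourceTarget.symm z).1
  have hg1 : Continuous g := continuous_subtype_val.comp e.toHomeomorphSourceTarget.symm.continuous
  have hg2 : IsOpenMap g :=
    (e.open_source.isOpenMap_subtype_val).comp e.toHomeomorphSourceTarget.symm.isOpenMap
  have h1 : IsMeagre (g ⁻¹' M) := hM.preimage_of_isOpenMap hg1 hg2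
  refine IsMeagre.mono ?_ h1.image_val
  rintro _ ⟨y, ⟨hy1, hy2⟩, rfl⟩
  refine ⟨⟨e y, e.map_source hy2⟩, ?_, rfl⟩
  show (e.toHomeomorphSourceTarget.symm ⟨e y, e.map_source hy2⟩).1 ∈ M
  have h2 : e.toHomeomorphSourceTarget ⟨y, hy2⟩ = ⟨e y, e.map_source hy2⟩ := rfl
  rw [← h2, Homeomorph.symm_apply_apply]
  exact hy1

theorem meagre_image {Y Z : Type*} [TopologicalSpace Y] [SecondCountableTopology Y]
    [TopologicalSpace Z] {s : Y → Z} (hs : IsLocalHomeomorph s) {M : Set Y} (hM : IsMeagre M) :
    IsMeagre (s '' M) := by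
  choose e he1 he2 using hs
  obtain ⟨t, ht, hcov⟩ := TopologicalSpace.countable_cover_nhds
    (f := fun x => (e x).source) (fun x => (e x).open_source.mem_nhds (he1 x))
  have : Countable t := ht.to_subtype
  refine IsMeagre.mono ?_ (isMeagre_iUnion (fun x : t => meagre_image_chart (e x.1) hM))
  rintro _ ⟨y, hy, rfl⟩
  have h1 : y ∈ ⋃ x ∈ t, (e x).source := by rw [hcov]; exact mem_univ y
  simp only [mem_iUnion] at h1
  obtain ⟨x, hx, h2⟩ := h1
  refine mem_iUnion.2 ⟨⟨x, hx⟩, y, ⟨hy, h2⟩, ?_⟩
  rw [← he2 x]

section general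

variable {Y : Type u} [TopologicalSpace Y] {s : Y → Y}

theorem cont_iter (hs : IsLocalHomeomorph s) (k : ℕ) : Continuous (s^[k]) := hs.continuous.iterate k

theorem open_iter (hs : IsLocalHomeomorph s) (k : ℕ) : IsOpenMap (s^[k]) := by
  induction k with
  | zero => exact IsOpenMap.id
  | succ k ih =>
    rw [Function.iterate_succ']
    exact hs.isOpenMap.comp ih

/-- The key step: if `L` is not meagre and `s^k (L) ⊆ L'` for all `k`, with `L' k` having the
property of Baire, then some `L' k` is comeagre. -/
theorem exists_comeagre [BaireSpace Y] (hs : IsLocalHomeomorph s)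
    (hexp : ∀ U : Set Y, IsOpen U → U.Nonempty → ∃ k, Dense (s^[k] '' U)) {L : Set Y}
    {L' : ℕ → Set Y} (hL : BaireMeasurableSet L) (hL' : ∀ k, BaireMeasurableSet (L' k))
    (hsub : ∀ k, ∀ y ∈ L, s^[k] y ∈ L' k) (hnm : ¬ IsMeagre L) : ∃ k, L' k ∈ residual Y := by
  obtain ⟨U, hU, hLU⟩ := hL.residualEq_isOpen
  have hUne : U.Nonempty := by
    by_contra hcon
    rw [not_nonempty_iff_eq_empty] at hcon
    subst hcon
    apply hnm
    rw [IsMeagre]
    filter_upwards [eventuallyEq_set.mp hLU] with z hz
    intro h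
    exact (hz.mp h)
  obtain ⟨k, hk⟩ := hexp U hU hUne
  refine ⟨k, ?_⟩
  by_contra hcon
  obtain ⟨V, hV, hLV⟩ := (hL' k).compl.residualEq_isOpen
  have hVne : V.Nonempty := by
    by_contra hcon2
    rw [not_nonempty_iff_eq_empty] at hcon2
    subst hcon2
    apply hcon
    filter_upwards [eventuallyEq_set.mp hLV] with z hz
    by_contra h
    exact (hz.mp h)
  -- the open set of the points of `U` which are mapped to `V`
  have hW : IsOpen (U ∩ s^[k] ⁻¹' V) := hU.inter (hV.preimage (cont_iter hs k))
  have hWne : (U ∩ s^[k] ⁻¹' V).Nonempty := by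
    obtain ⟨z, hz1, x, hx1, hx2⟩ := hk.inter_open_nonempty V hV hVne
    exact ⟨x, hx1, by rw [mem_preimage, hx2]; exact hz1⟩
  have h1 : ∀ᶠ x in residual Y, s^[k] x ∈ (L' k)ᶜ ↔ s^[k] x ∈ V :=
    (tendsto_residual_of_isOpenMap (cont_iter hs k) (open_iter hs k)).eventually
      (eventuallyEq_set.mp hLV)
  have h2 := eventuallyEq_set.mp hLU
  have h3 : {x | ¬ x ∈ U ∩ s^[k] ⁻¹' V} ∈ residual Y := by
    filter_upwards [h1, h2] with x hx1 hx2
    rintro ⟨hxU, hxV⟩
    exact (hx1.2 hxV) (hsub k x (hx2.2 hxU))
  have h4 : IsMeagre (U ∩ s^[k] ⁻¹' V) := h3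
  exact not_isMeagre_of_isOpen hW hWne h4

theorem dense_range_of [Nonempty Y] (hs : IsLocalHomeomorph s)
    (hexp : ∀ U : Set Y, IsOpen U → U.Nonempty → ∃ k, Dense (s^[k] '' U)) : Dense (range s) := by
  by_contra hcon
  have hne : (closure (range s))ᶜ.Nonempty := by
    rw [nonempty_compl]
    intro h
    exact hcon (dense_iff_closure_eq.2 h)
  obtain ⟨k, hk⟩ := hexp _ isClosed_closure.isOpen_compl hne
  cases k with
  | zero =>
    rw [Function.iterate_zero, image_id] at hk
    have hr : IsOpen (range s) := by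
      rw [← image_univ]
      exact hs.isOpenMap _ isOpen_univ
    obtain ⟨z, hz1, hz2⟩ := hk.inter_open_nonempty _ hr (range_nonempty s)
    exact hz2 (subset_closure hz1)
  | succ k =>
    apply hcon
    refine hk.mono ?_
    rintro _ ⟨x, -, rfl⟩
    rw [Function.iterate_succ_apply']
    exact mem_range_self _

/-- The general theorem. -/
theorem general [SecondCountableTopology Y] [BaireSpace Y] [Nonempty Y] (hs : IsLocalHomeomorph s)
    (hexp : ∀ U : Set Y, IsOpen U → U.Nonempty → ∃ k, Dense (s^[k] '' U))
    {B : Set (ℕ × Y)} (hB : BaireMeasurableSet B) (hsec : IsCompleteSection (tower s) B)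
    (hinv : tower s '' B ⊆ B) :
    ∃ n₀, ∀ n, n₀ ≤ n → ∀ᶠ y in residual Y, tower s ⁻¹' {(n + 1, y)} ⊆ B := by
  have hinv' : ∀ (m n : ℕ) (z : Y), (n, z) ∈ B → (n + m, s^[m] z) ∈ B := by
    intro m n z hz
    rw [← tower_iterate]
    induction m with
    | zero => simpa using hz
    | succ m ih =>
      rw [Function.iterate_succ_apply']
      exact hinv (mem_image_of_mem _ ih)
  have hcont : ∀ n : ℕ, Continuous (fun z : Y => (n, z)) := fun n => by fun_prop
  have hopen : ∀ n : ℕ, IsOpenMap (fun z : Y => (n, z)) := by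
    intro n V hV
    have : (fun z : Y => (n, z)) '' V = {n} ×ˢ V := by
      ext p
      constructor
      · rintro ⟨z, hz, rfl⟩
        exact ⟨rfl, hz⟩
      · rintro ⟨h1, h2⟩
        refine ⟨p.2, h2, ?_⟩
        rw [mem_singleton_iff] at h1
        exact Prod.ext h1.symm rfl
    rw [this]
    exact (isOpen_discrete _).prod hV
  let L : ℕ → Set Y := fun n => (fun z : Y => (n, z)) ⁻¹' B
  have hLB : ∀ n, BaireMeasurableSet (L n) := fun n => hB.preimage (hcont n) (hopen n)
  have hcover : ∀ z : Y, ∃ m, s^[m] z ∈ L m := by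
    intro z
    obtain ⟨⟨n', y⟩, hy, m, n, hmn⟩ := hsec (0, z)
    refine ⟨m, ?_⟩
    have h1 := hinv' n n' y hy
    rw [tower_iterate, tower_iterate] at hmn
    rw [← hmn, Nat.zero_add] at h1
    exact h1
  have hnm : ∃ m, ¬ IsMeagre (L m) := by
    by_contra hcon
    push Not at hcon
    have h1 : IsMeagre (⋃ m, s^[m] ⁻¹' (L m)) :=
      isMeagre_iUnion fun m => (hcon m).preimage_of_isOpenMap (cont_iter hs m) (open_iter hs m)
    have h2 : (⋃ m, s^[m] ⁻¹' (L m)) = univ := by
      ext z
      simp only [mem_iUnion, mem_preimage, mem_univ, iff_true]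
      exact hcover z
    rw [h2] at h1
    exact not_isMeagre_of_isOpen isOpen_univ univ_nonempty h1
  obtain ⟨m, hm⟩ := hnm
  obtain ⟨k, hk⟩ := exists_comeagre hs hexp (hLB m) (fun k => hLB (m + k))
    (fun k y hy => hinv' k m y hy) hm
  -- all higher levels are comeagre
  have hdr := dense_range_of hs hexp
  have hstep : ∀ n, L n ∈ residual Y → L (n + 1) ∈ residual Y := by
    intro n hn
    by_contra hcon
    obtain ⟨V, hV, hLV⟩ := (hLB (n + 1)).compl.residualEq_isOpen
    have hVne : V.Nonempty := by
      by_contra hcon2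
      rw [not_nonempty_iff_eq_empty] at hcon2
      subst hcon2
      apply hcon
      filter_upwards [eventuallyEq_set.mp hLV] with z hz
      by_contra h
      exact (hz.mp h)
    have hW : IsOpen (s ⁻¹' V) := hV.preimage hs.continuous
    have hWne : (s ⁻¹' V).Nonempty := by
      obtain ⟨z, hz1, x, hx⟩ := hdr.inter_open_nonempty V hV hVne
      exact ⟨x, by rw [mem_preimage, hx]; exact hz1⟩
    have h1 : ∀ᶠ x in residual Y, s x ∈ (L (n + 1))ᶜ ↔ s x ∈ V :=
      (tendsto_residual_of_isOpenMap hs.continuous hs.isOpenMap).eventually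
        (eventuallyEq_set.mp hLV)
    have h3 : {x | ¬ x ∈ s ⁻¹' V} ∈ residual Y := by
      filter_upwards [h1, hn] with x hx1 hx2
      intro hxV
      exact (hx1.2 hxV) (hinv' 1 n x hx2)
    have h4 : IsMeagre (s ⁻¹' V) := h3
    exact not_isMeagre_of_isOpen hW hWne h4
  have hall : ∀ n, m + k ≤ n → L n ∈ residual Y := by
    intro n hn
    induction hn with
    | refl => exact hk
    | step _ ih => exact hstep _ ih
  refine ⟨m + k, fun n hn => ?_⟩
  have h1 : IsMeagre (L n)ᶜ := by
    rw [IsMeagre, compl_compl]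
    exact hall n hn
  have h2 : IsMeagre (s '' (L n)ᶜ) := meagre_image hs h1
  filter_upwards [h2] with y hy
  rintro ⟨n', x⟩ hx
  have h3 : n' + 1 = n + 1 := congrArg Prod.fst hx
  have h4 : s x = y := congrArg Prod.snd hx
  obtain rfl : n' = n := by omega
  by_contra hno
  exact hy ⟨x, hno, h4⟩

end general

/-! ### The shift of the Baire space -/

/-- Put `i` in front of `z`. -/
def cons (i : ℕ) (z : ℕ → ℕ) : ℕ → ℕ := fun j => if j = 0 then i else z (j - 1)

theorem shift_cons (i : ℕ) (z : ℕ → ℕ) : shift (cons i z) = z := by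
  funext j
  simp [shift, cons]

theorem cons_shift (z : ℕ → ℕ) : cons (z 0) (shift z) = z := by
  funext j
  by_cases h : j = 0
  · simp [cons, h]
  · simp only [cons, h, if_false, shift]
    congr 1
    omega

theorem continuous_shift : Continuous shift := continuous_pi fun j => continuous_apply (j + 1)

theorem continuous_cons (i : ℕ) : Continuous (cons i) := by
  refine continuous_pi fun j => ?_
  by_cases h : j = 0
  · simp only [cons, h, if_true]
    exact continuous_const
  · simp only [cons, h, if_false]
    exact continuous_apply _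

/-- The chart at the sequences which start with `i`. -/
def chart (i : ℕ) : OpenPartialHomeomorph (ℕ → ℕ) (ℕ → ℕ) where
  toFun := shift
  invFun := cons i
  source := {z | z 0 = i}
  target := univ
  map_source' := fun _ _ => mem_univ _
  map_target' := fun z _ => by simp [cons]
  left_inv' := fun z hz => by
    have h : z 0 = i := hz
    rw [← h]
    exact cons_shift z
  right_inv' := fun z _ => shift_cons i z
  open_source := (isOpen_discrete {i}).preimage (continuous_apply (A := fun _ : ℕ => ℕ) 0)
  open_target := isOpen_univ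
  continuousOn_toFun := continuous_shift.continuousOn
  continuousOn_invFun := (continuous_cons i).continuousOn

theorem local_shift : IsLocalHomeomorph shift :=
  IsLocalHomeomorph.mk shift fun z => ⟨chart (z 0), rfl, fun _ _ => rfl⟩

theorem shift_iter (k : ℕ) (z : ℕ → ℕ) : shift^[k] z = fun j => z (j + k) := by
  induction k with
  | zero => rfl
  | succ k ih =>
    rw [Function.iterate_succ_apply', ih]
    funext j
    simp only [shift]
    congr 1
    omega

theorem shift_exp (U : Set (ℕ → ℕ)) (hU : IsOpen U) (hne : U.Nonempty) :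
    ∃ k, Dense (shift^[k] '' U) := by
  obtain ⟨t, ht⟩ := hne
  rw [isOpen_pi_iff] at hU
  obtain ⟨I, u, hu, hIU⟩ := hU t ht
  refine ⟨I.sup id + 1, ?_⟩
  have h : shift^[I.sup id + 1] '' U = univ := by
    rw [eq_univ_iff_forall]
    intro z
    refine ⟨fun j => if j < I.sup id + 1 then t j else z (j - (I.sup id + 1)), hIU ?_, ?_⟩
    · intro j hj
      have hj' : j < I.sup id + 1 := Nat.lt_succ_of_le (Finset.le_sup (f := id) hj)
      simp only [hj', if_true]
      exact (hu j hj).2
    · rw [shift_iter]
      funext j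
      have h : ¬ (j + (I.sup id + 1) < I.sup id + 1) := by omega
      simp only [h, if_false]
      rw [Nat.add_sub_cancel]
  rw [h]
  exact dense_univ

/-- (1) Let `s` be a local homeomorphism of a non-empty second countable Baire space `Y` such that
each non-empty open set has a dense image under some iterate of `s`.  Let `B` be a forward
invariant complete section, with the property of Baire, for `(n, y) ↦ (n + 1, s y)` on `ℕ × Y`.
Then for all sufficiently large `n` the set `B` contains the whole fibre over `(n + 1, y)`, for a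
comeagre set of points `y`.

(2) There is a Polish space `X` and a local homeomorphism `f : X → X` which is countable-to-one,
aperiodic and well founded, all of whose non-empty fibres are infinite, such that for every forward
invariant complete section `B` with the property of Baire (in particular, for every Borel one)
there is a non-meagre set of points `y` with `f ⁻¹' {y}` infinite and contained in `B`; so no such
`B` is good. -/
theorem result :
    (∀ (Y : Type u) [TopologicalSpace Y] [SecondCountableTopology Y] [BaireSpace Y] [Nonempty Y]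
      (s : Y → Y), IsLocalHomeomorph s →
      (∀ U : Set Y, IsOpen U → U.Nonempty → ∃ k, Dense (s^[k] '' U)) →
      ∀ B : Set (ℕ × Y), BaireMeasurableSet B → IsCompleteSection (tower s) B →
        tower s '' B ⊆ B →
        ∃ n₀, ∀ n, n₀ ≤ n → ∀ᶠ y in residual Y, tower s ⁻¹' {(n + 1, y)} ⊆ B) ∧
    (∃ (X : Type) (_ : TopologicalSpace X) (_ : PolishSpace X) (_ : MeasurableSpace X)
      (_ : BorelSpace X) (f : X → X),
      Measurable f ∧ IsLocalHomeomorph f ∧
      (∀ y : X, (f ⁻¹' {y}).Countable) ∧
      (∀ y ∈ range f, (f ⁻¹' {y}).Infinite) ∧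
      (∀ x : X, ∀ n : ℕ, 1 ≤ n → f^[n] x ≠ x) ∧
      (¬ ∃ x : ℕ → X, ∀ i : ℕ, f (x (i + 1)) = x i) ∧
      (∀ B : Set X, BaireMeasurableSet B → IsCompleteSection f B → f '' B ⊆ B →
        ¬ IsMeagre {y : X | (f ⁻¹' {y}).Infinite ∧ f ⁻¹' {y} ⊆ B}) ∧
      (∀ B : Set X, MeasurableSet B → ¬ IsGood f B) ∧
      (∀ B : Set X, BaireMeasurableSet B → ¬ IsGood f B)) := by
  refine ⟨fun Y _ _ _ _ s hs hexp B hB hsec hinv => general hs hexp hB hsec hinv, ?_⟩
  have hloc : IsLocalHomeomorph (tower shift) := by
    have hsucc : IsOpenEmbedding (fun n : ℕ => n + 1) :=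
      .of_continuous_injective_isOpenMap continuous_of_discreteTopology
        (add_left_injective 1) (fun _ _ => isOpen_discrete _)
    refine IsLocalHomeomorph.mk _ fun p =>
      ⟨(hsucc.toOpenPartialHomeomorph (fun n : ℕ => n + 1)).prod (chart (p.2 0)), ?_, ?_⟩
    · exact ⟨mem_univ _, rfl⟩
    · intro q _
      rfl
  have hfib : ∀ (n : ℕ) (z : ℕ → ℕ), tower shift ⁻¹' {(n + 1, z)} =
      range (fun i : ℕ => ((n, cons i z) : ℕ × (ℕ → ℕ))) := by
    intro n z
    ext ⟨n', y⟩
    constructor
    · intro hy
      have h1 : n' + 1 = n + 1 := congrArg Prod.fst hy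
      have h2 : shift y = z := congrArg Prod.snd hy
      refine ⟨y 0, ?_⟩
      refine Prod.ext (by simp only; omega) ?_
      rw [← h2]
      exact cons_shift y
    · rintro ⟨i, hi⟩
      have h1 : n = n' := congrArg Prod.fst hi
      have h2 : cons i z = y := congrArg Prod.snd hi
      subst h1 h2
      show (n + 1, shift (cons i z)) = (n + 1, z)
      rw [shift_cons]
  have hinf : ∀ (n : ℕ) (z : ℕ → ℕ), (tower shift ⁻¹' {(n + 1, z)}).Infinite := by
    intro n z
    rw [hfib]
    refine Set.infinite_range_of_injective ?_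
    intro i j hij
    have h5 := congrFun (congrArg Prod.snd hij) 0
    simpa [cons] using h5
  have hmain : ∀ B : Set (ℕ × (ℕ → ℕ)), BaireMeasurableSet B →
      IsCompleteSection (tower shift) B → tower shift '' B ⊆ B →
      ¬ IsMeagre {y | (tower shift ⁻¹' {y}).Infinite ∧ tower shift ⁻¹' {y} ⊆ B} := by
    intro B hB hsec hinv hme
    obtain ⟨n₀, hn₀⟩ := general local_shift shift_exp hB hsec hinv
    have h1 := hn₀ n₀ le_rfl
    have hcont : Continuous (fun z : ℕ → ℕ => (n₀ + 1, z)) := by fun_prop
    have hopen : IsOpenMap (fun z : ℕ → ℕ => (n₀ + 1, z)) := by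
      intro V hV
      have : (fun z : ℕ → ℕ => (n₀ + 1, z)) '' V = {n₀ + 1} ×ˢ V := by
        ext p
        constructor
        · rintro ⟨z, hz, rfl⟩
          exact ⟨rfl, hz⟩
        · rintro ⟨h1, h2⟩
          refine ⟨p.2, h2, ?_⟩
          rw [mem_singleton_iff] at h1
          exact Prod.ext h1.symm rfl
      rw [this]
      exact (isOpen_discrete _).prod hV
    have h2 := hme.preimage_of_isOpenMap hcont hopen
    have h3 : IsMeagre (univ : Set (ℕ → ℕ)) := by
      have h4 : (univ : Set (ℕ → ℕ)) ⊆
          ((fun z : ℕ → ℕ => (n₀ + 1, z)) ⁻¹'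
            {y | (tower shift ⁻¹' {y}).Infinite ∧ tower shift ⁻¹' {y} ⊆ B}) ∪
          {z | ¬ tower shift ⁻¹' {(n₀ + 1, z)} ⊆ B} := by
        intro z _
        by_cases hz : tower shift ⁻¹' {(n₀ + 1, z)} ⊆ B
        · exact Or.inl ⟨hinf n₀ z, hz⟩
        · exact Or.inr hz
      refine IsMeagre.mono h4 (h2.union ?_)
      rw [IsMeagre]
      filter_upwards [h1] with z hz
      intro hno
      exact hno hz
    exact not_isMeagre_of_isOpen isOpen_univ univ_nonempty h3
  have hgood : ∀ B : Set (ℕ × (ℕ → ℕ)), BaireMeasurableSet B → ¬ IsGood (tower shift) B := by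
    rintro B hB ⟨h1, h2, h3⟩
    obtain ⟨y, hy1, hy2⟩ := nonempty_of_not_isMeagre (hmain B hB h1 h2)
    apply hy1
    have h4 := h3 y
    rwa [inter_eq_left.2 hy2] at h4
  refine ⟨ℕ × (ℕ → ℕ), inferInstance, inferInstance, inferInstance, inferInstance, tower shift,
    hloc.continuous.measurable, hloc, ?_, ?_, ?_, ?_, hmain,
    fun B hB => hgood B hB.baireMeasurableSet, hgood⟩
  · rintro ⟨n, z⟩
    cases n with
    | zero =>
      have : tower shift ⁻¹' {((0 : ℕ), z)} = ∅ := by
        ext p
        simp [tower]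
      rw [this]
      exact countable_empty
    | succ n =>
      rw [hfib]
      exact countable_range _
  · rintro _ ⟨⟨n, z⟩, rfl⟩
    exact hinf n (shift z)
  · rintro ⟨n, z⟩ m hm h
    rw [tower_iterate] at h
    have h1 := congrArg Prod.fst h
    simp only at h1
    omega
  · rintro ⟨x, hx⟩
    have h : ∀ i : ℕ, (x i).1 + i = (x 0).1 := by
      intro i
      induction i with
      | zero => rfl
      | succ i ih =>
        have h1 : (x (i + 1)).1 + 1 = (x i).1 := congrArg Prod.fst (hx i)
        omega
    have h2 := h ((x 0).1 + 1)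
    omega

end Pool.Agent.Results.MP_a2e3d9_lc.WholeFibres
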